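import Pool.Agent.J4H12.PZ.Stm

set_option autoImplicit false

open MeasureTheory Set Filter Topology Metric
open scoped Pointwise RealInnerProductSpace ENNReal

namespace Pool.Agent.J4H88.PZ

open Pool.Agent.H638.IB Pool.Agent.J4H12.PZ

theorem t_TH3 : S_TH3 := by
  intro n K hsym ε hε
  have hε2 : 0 < ε / 2 := by linarith
  let B : Set (E n) := closedBall 0 (ε / 2)
  obtain ⟨x0, hx0⟩ := K.nonempty
  let K' : ConvexBody (E n) :=
    ⟨(K : Set (E n)) + B, K.convex.add (convex_closedBall 0 (ε / 2)),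
      K.isCompact.add (isCompact_closedBall 0 (ε / 2)),
      ⟨x0 + 0, x0, hx0, 0, mem_closedBall_self hε2.le, rfl⟩⟩
  have hK' : (K' : Set (E n)) = (K : Set (E n)) + B := rfl
  refine ⟨K', ?_, ?_, ?_⟩
  · intro x hx
    rw [hK'] at hx ⊢
    obtain ⟨a, ha, b, hb, rfl⟩ := hx
    refine ⟨-a, hsym a ha, -b, ?_, by simp only; abel⟩
    rw [mem_closedBall_zero_iff] at hb ⊢
    rwa [norm_neg]
  · refine ⟨x0, mem_interior.2 ⟨ball x0 (ε / 2), ?_, isOpen_ball, mem_ball_self hε2⟩⟩
    intro y hy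
    rw [hK']
    refine ⟨x0, hx0, y - x0, ?_, by simp⟩
    rw [mem_closedBall_zero_iff]
    rw [mem_ball_iff_norm] at hy
    exact hy.le
  · have : dist K' K ≤ ε / 2 := by
      rw [← ConvexBody.hausdorffDist_coe]
      refine hausdorffDist_le_of_mem_dist hε2.le ?_ ?_
      · intro x hx
        rw [hK'] at hx
        obtain ⟨a, ha, b, hb, rfl⟩ := hx
        refine ⟨a, ha, ?_⟩
        rw [mem_closedBall_zero_iff] at hb
        simpa [dist_eq_norm] using hb
      · intro x hx
        refine ⟨x, ?_, by simp [hε2.le]⟩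
        rw [hK']
        exact ⟨x, hx, 0, mem_closedBall_self hε2.le, by simp⟩
    linarith

end Pool.Agent.J4H88.PZ
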