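import Pool.Agent.J4H12.PZ.Stm

set_option autoImplicit false

open MeasureTheory Set Filter Topology Metric
open scoped Pointwise RealInnerProductSpace ENNReal

namespace Pool.Agent.J4H88.PZ

open Pool.Agent.H638.IB Pool.Agent.J4H12.PZ

/-- The open set. -/
def U : Set ℝ := {p | p ≠ 0 ∧ p ≠ -1}

theorem U_open : IsOpen U := by
  have : U = ({0}ᶜ : Set ℝ) ∩ ({-1}ᶜ : Set ℝ) := by
    ext p; simp [U]
  rw [this]
  exact isOpen_compl_singleton.inter isOpen_compl_singleton

theorem Test.sub {ψ : ℝ → ℝ} (h : Test ψ) : tsupport ψ ⊆ U := by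
  intro p hp
  refine ⟨?_, ?_⟩
  · rintro rfl; exact h.zero hp
  · rintro rfl; exact h.one hp

theorem cont_mul {ψ f : ℝ → ℝ} (h : Test ψ) (hf : ContinuousOn f U) :
    Continuous (fun p => ψ p * f p) := by
  rw [continuous_iff_continuousAt]
  intro x
  by_cases hx : x ∈ U
  · exact h.smooth.continuous.continuousAt.mul (hf.continuousAt (U_open.mem_nhds hx))
  · have hx' : x ∈ (tsupport ψ)ᶜ := fun h' => hx (Test.sub h h')
    have : (fun p => ψ p * f p) =ᶠ[𝓝 x] fun _ => (0 : ℝ) := by
      filter_upwards [(isClosed_tsupport ψ).isOpen_compl.mem_nhds hx'] with y hy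
      have : ψ y = 0 := image_eq_zero_of_notMem_tsupport hy
      simp [this]
    exact (continuousAt_const (y := (0 : ℝ))).congr this.symm

theorem int_mul {ψ f : ℝ → ℝ} (h : Test ψ) (hf : ContinuousOn f U) :
    Integrable (fun p => ψ p * f p) :=
  (cont_mul h hf).integrable_of_hasCompactSupport h.supp.mul_right

theorem Test.add {ψ φ : ℝ → ℝ} (h : Test ψ) (h' : Test φ) : Test (ψ + φ) := by
  have hs : tsupport (ψ + φ) ⊆ tsupport ψ ∪ tsupport φ := by
    refine closure_minimal ?_ ((isClosed_tsupport ψ).union (isClosed_tsupport φ))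
    intro x hx
    by_contra hn
    rw [mem_union, not_or] at hn
    apply hx
    simp [image_eq_zero_of_notMem_tsupport hn.1, image_eq_zero_of_notMem_tsupport hn.2]
  exact ⟨h.smooth.add h'.smooth, h.supp.add h'.supp,
    fun hx => (hs hx).elim h.zero h'.zero, fun hx => (hs hx).elim h.one h'.one⟩

theorem Test.smul {ψ : ℝ → ℝ} (c : ℝ) (h : Test ψ) : Test (c • ψ) := by
  have hs : tsupport (c • ψ) ⊆ tsupport ψ := by
    refine closure_minimal ?_ (isClosed_tsupport ψ)
    intro x hx
    by_contra hn
    apply hx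
    simp [image_eq_zero_of_notMem_tsupport hn]
  exact ⟨contDiff_const.smul h.smooth, h.supp.mono' (subset_closure.trans hs),
    fun hx => h.zero (hs hx), fun hx => h.one (hs hx)⟩

theorem Test.zero' : Test (0 : ℝ → ℝ) :=
  ⟨contDiff_const, HasCompactSupport.zero, by simp [tsupport], by simp [tsupport]⟩

/-- The space of test functions. -/
def V : Submodule ℝ (ℝ → ℝ) where
  carrier := {ψ | Test ψ}
  add_mem' h h' := Test.add h h'
  zero_mem' := Test.zero'
  smul_mem' c _ h := Test.smul c h

/-- The functional of a function. -/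
noncomputable def ell (f : ℝ → ℝ) (hf : ContinuousOn f U) : V →ₗ[ℝ] ℝ where
  toFun ψ := ∫ p, (ψ : ℝ → ℝ) p * f p
  map_add' ψ φ := by
    rw [← integral_add (int_mul ψ.2 hf) (int_mul φ.2 hf)]
    exact integral_congr_ae (Filter.Eventually.of_forall fun p => by simp [add_mul])
  map_smul' c ψ := by
    simp only [RingHom.id_apply, smul_eq_mul]
    rw [← integral_const_mul]
    exact integral_congr_ae (Filter.Eventually.of_forall fun p => by simp [mul_assoc])

theorem t_V8 : S_V8 := by
  intro J hJ hort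
  have hJ' : ContinuousOn J U := hJ
  have h1 : ContinuousOn (fun p : ℝ => (1 : ℝ)) U := continuousOn_const
  have h2 : ContinuousOn (fun p : ℝ => 1 / p) U :=
    continuousOn_const.div continuousOn_id fun p hp => hp.1
  have h3 : ContinuousOn (fun p : ℝ => 1 / (p + 1)) U :=
    continuousOn_const.div (continuousOn_id.add continuousOn_const)
      fun p hp h => hp.2 (by change p + 1 = 0 at h; linarith)
  let L : Fin 3 → (V →ₗ[ℝ] ℝ) := ![ell _ h1, ell _ h2, ell _ h3]
  have hK : ell J hJ' ∈ Submodule.span ℝ (range L) := by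
    refine mem_span_of_iInf_ker_le_ker ?_
    intro ψ hψ
    rw [Submodule.mem_iInf] at hψ
    have e0 := LinearMap.mem_ker.1 (hψ 0)
    have e1 := LinearMap.mem_ker.1 (hψ 1)
    have e2 := LinearMap.mem_ker.1 (hψ 2)
    rw [LinearMap.mem_ker]
    change (∫ p, (ψ : ℝ → ℝ) p * 1) = 0 at e0
    change (∫ p, (ψ : ℝ → ℝ) p * (1 / p)) = 0 at e1
    change (∫ p, (ψ : ℝ → ℝ) p * (1 / (p + 1))) = 0 at e2
    change (∫ p, (ψ : ℝ → ℝ) p * J p) = 0
    refine hort ψ ψ.2 (by simpa using e0) ?_ ?_
    · rw [← e1]; congr 1; ext p; rw [mul_one_div]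
    · rw [← e2]; congr 1; ext p; rw [mul_one_div]
  obtain ⟨c, hc⟩ := (Submodule.mem_span_range_iff_exists_fun ℝ).1 hK
  refine ⟨c 0, c 1, c 2, ?_⟩
  set R : ℝ → ℝ := fun p => c 0 + c 1 / p + c 2 / (p + 1) with hR
  have hRc : ContinuousOn R U := by
    have a := (continuousOn_const (c := c 1) (s := U)).div continuousOn_id
      (fun p (hp : p ∈ U) => hp.1)
    have b := (continuousOn_const (c := c 2) (s := U)).div
      (continuousOn_id.add (continuousOn_const (c := (1 : ℝ))))
      (fun p (hp : p ∈ U) (h : p + 1 = 0) => hp.2 (by linarith))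
    exact (continuousOn_const.add a).add b
  have hD : ContinuousOn (fun p => J p - R p) U := hJ'.sub hRc
  have hz := IsOpen.ae_eq_zero_of_integral_contDiff_smul_eq_zero (μ := (volume : Measure ℝ))
    U_open (hD.locallyIntegrableOn U_open.measurableSet) (by
      intro ψ hs hc' hsub
      have hT : Test ψ := ⟨hs, hc', fun h => (hsub h).1 rfl, fun h => (hsub h).2 rfl⟩
      have hv := LinearMap.congr_fun hc ⟨ψ, hT⟩
      have hv' : c 0 * (∫ p, ψ p * 1) + c 1 * (∫ p, ψ p * (1 / p)) +
          c 2 * (∫ p, ψ p * (1 / (p + 1))) = ∫ p, ψ p * J p := by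
        rw [Fin.sum_univ_three] at hv
        exact hv
      have i0 := (int_mul hT h1).const_mul (c 0)
      have i1 := (int_mul hT h2).const_mul (c 1)
      have i2 := (int_mul hT h3).const_mul (c 2)
      have i01 : Integrable (fun p => c 0 * (ψ p * 1) + c 1 * (ψ p * (1 / p))) := i0.add i1
      have i012 : Integrable (fun p => c 0 * (ψ p * 1) + c 1 * (ψ p * (1 / p)) +
        c 2 * (ψ p * (1 / (p + 1)))) := i01.add i2
      have : (∫ p, ψ p • (J p - R p)) = (∫ p, ψ p * J p) -
          (c 0 * (∫ p, ψ p * 1) + c 1 * (∫ p, ψ p * (1 / p)) +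
          c 2 * (∫ p, ψ p * (1 / (p + 1)))) := by
        rw [← integral_const_mul, ← integral_const_mul, ← integral_const_mul,
          ← integral_add i0 i1, ← integral_add i01 i2,
          ← integral_sub (int_mul hT hJ') i012]
        refine integral_congr_ae (Filter.Eventually.of_forall fun p => ?_)
        simp only [smul_eq_mul, hR]
        ring
      rw [this, hv', sub_self])
  have hEq : EqOn J R U := by
    refine Measure.eqOn_open_of_ae_eq (μ := (volume : Measure ℝ)) ?_ U_open hJ' hRc
    rw [Filter.EventuallyEq, ae_restrict_iff' U_open.measurableSet]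
    filter_upwards [hz] with p hp hpU
    have := hp hpU
    linarith
  intro p hp0 hp1
  exact hEq ⟨hp0, hp1⟩

end Pool.Agent.J4H88.PZ
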